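import Pool.Agent.Q180.TP.Form

/-! Counting double cosets by the number of left cosets they contain. -/

namespace Pool.Agent.Q180.TQ

open Pool.Agent.Q180.TP Finset

variable {G : Type*} [Group G] [Finite G]

lemma tt_stab (H : Subgroup G) (g : G) :
    tt H H (mkD H H g) = (MulAction.stabilizer G (mkL H g)).relIndex H := by
  rw [← orb_ncard, orb_tt, pL_mk]

omit [Finite G] in
lemma mem_stab (H : Subgroup G) (g h : G) :
    h ∈ MulAction.stabilizer G (mkL H g) ↔ g⁻¹ * h * g ∈ H := by
  rw [MulAction.mem_stabilizer_iff]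
  change mkL H (h * g) = mkL H g ↔ _
  rw [mkL_eq, ← H.inv_mem_iff]
  have : ((h * g)⁻¹ * g)⁻¹ = g⁻¹ * h * g := by group
  rw [this]

lemma tt_mul (H : Subgroup G) (g : G) :
    Nat.card {h : G // h ∈ H ∧ g⁻¹ * h * g ∈ H} * tt H H (mkD H H g) = Nat.card H := by
  rw [tt_stab, Subgroup.relIndex,
    ← Subgroup.card_mul_index ((MulAction.stabilizer G (mkL H g)).subgroupOf H)]
  congr 1
  apply Nat.card_congr
  refine ⟨fun h => ⟨⟨h.1, h.2.1⟩, ?_⟩, fun k => ⟨k.1.1, k.1.2, ?_⟩, ?_, ?_⟩
  · rw [Subgroup.mem_subgroupOf, mem_stab]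
    exact h.2.2
  · have := k.2
    rw [Subgroup.mem_subgroupOf, mem_stab] at this
    exact this
  · intro h; rfl
  · intro k; rfl

lemma tt_le_core (H : Subgroup G) (g : G) :
    tt H H (mkD H H g) ≤ H.normalCore.relIndex H := by
  rw [tt_stab]
  apply Subgroup.relIndex_le_of_le_left
  · intro k hk
    rw [mem_stab]
    have := hk g⁻¹
    simpa using this
  · rw [Subgroup.relIndex]
    exact Subgroup.index_ne_zero_of_finite

lemma card_E (H : Subgroup G) [Fintype (DQ H H)] (j : ℕ) :
    Nat.card {g : G // tt H H (mkD H H g) = j} =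
      j * Nat.card H * (univ.filter fun d : DQ H H => tt H H d = j).card := by
  classical
  have e : {g : G // tt H H (mkD H H g) = j} ≃
      Σ d : {d : DQ H H // tt H H d = j}, {x : G // mkD H H x = d.1} :=
    { toFun := fun x => ⟨⟨mkD H H x.1, x.2⟩, ⟨x.1, rfl⟩⟩
      invFun := fun y => ⟨y.2.1, by rw [y.2.2]; exact y.1.2⟩
      left_inv := fun x => rfl
      right_inv := by
        rintro ⟨⟨a, ha⟩, ⟨x, hx⟩⟩
        simp only at hx
        subst hx
        rfl }
  rw [Nat.card_congr e, Nat.card_sigma]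
  have : ∀ d : {d : DQ H H // tt H H d = j}, Nat.card {x : G // mkD H H x = d.1} =
      j * Nat.card H := by
    intro d
    rw [card_D_left, d.2]
  rw [Finset.sum_congr rfl (fun d _ => this d), Finset.sum_const, smul_eq_mul, Finset.card_univ,
    Fintype.card_subtype, mul_comm]

lemma P_count (H : Subgroup G) [Fintype (DQ H H)]
    (h : ∀ g, tt H H (mkD H H g) = 1 ∨ tt H H (mkD H H g) = 2 ∨ tt H H (mkD H H g) = 4) :
    P H H = (1 / 2) ^ (univ.filter fun d : DQ H H => tt H H d = 2).card *
      (3 / 32) ^ (univ.filter fun d : DQ H H => tt H H d = 4).card := by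
  classical
  rw [P_formula rfl]
  have : ∀ d : DQ H H, phi (tt H H d) =
      (if tt H H d = 2 then (1 / 2 : ℚ) else 1) * (if tt H H d = 4 then (3 / 32 : ℚ) else 1) := by
    intro d
    obtain ⟨x, rfl⟩ := Quotient.exists_rep d
    rcases h x with h | h | h
    · change phi (tt H H (mkD H H x)) = (if tt H H (mkD H H x) = 2 then _ else _) *
        (if tt H H (mkD H H x) = 4 then _ else _)
      rw [h, phi_one]; norm_num
    · change phi (tt H H (mkD H H x)) = (if tt H H (mkD H H x) = 2 then _ else _) *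
        (if tt H H (mkD H H x) = 4 then _ else _)
      rw [h, phi_two]; norm_num
    · change phi (tt H H (mkD H H x)) = (if tt H H (mkD H H x) = 2 then _ else _) *
        (if tt H H (mkD H H x) = 4 then _ else _)
      rw [h]; norm_num [phi, Nat.factorial]
  rw [Finset.prod_congr rfl (fun d _ => this d), Finset.prod_mul_distrib, Finset.prod_ite,
    Finset.prod_ite]
  simp only [Finset.prod_const, one_pow, mul_one]

end Pool.Agent.Q180.TQ
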