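import Pool.Agent.Q180.TQ.Count

/-! The Heisenberg group modulo 4. -/

namespace Pool.Agent.Q180.TQ

open Pool.Agent.Q180.TP Finset

/-- The Heisenberg group over `ℤ/4`: upper unitriangular matrices with entries `a`, `b` next to the
diagonal and `c` in the corner. -/
@[ext] structure Hz where
  a : ZMod 4
  b : ZMod 4
  c : ZMod 4
deriving DecidableEq, Fintype

namespace Hz

instance : Mul Hz := ⟨fun x y => ⟨x.a + y.a, x.b + y.b, x.c + y.c + x.a * y.b⟩⟩
instance : One Hz := ⟨⟨0, 0, 0⟩⟩
instance : Inv Hz := ⟨fun x => ⟨-x.a, -x.b, -x.c + x.a * x.b⟩⟩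

@[simp] lemma mul_a (x y : Hz) : (x * y).a = x.a + y.a := rfl
@[simp] lemma mul_b (x y : Hz) : (x * y).b = x.b + y.b := rfl
@[simp] lemma mul_c (x y : Hz) : (x * y).c = x.c + y.c + x.a * y.b := rfl
@[simp] lemma one_a : (1 : Hz).a = 0 := rfl
@[simp] lemma one_b : (1 : Hz).b = 0 := rfl
@[simp] lemma one_c : (1 : Hz).c = 0 := rfl
@[simp] lemma inv_a (x : Hz) : (x⁻¹).a = -x.a := rfl
@[simp] lemma inv_b (x : Hz) : (x⁻¹).b = -x.b := rfl
@[simp] lemma inv_c (x : Hz) : (x⁻¹).c = -x.c + x.a * x.b := rfl

instance : Group Hz := Group.ofLeftAxioms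
  (by intro x y z; ext <;> simp <;> ring)
  (by intro x; ext <;> simp)
  (by intro x; ext <;> simp)

end Hz

lemma card_Hz : Nat.card Hz = 64 := by
  rw [Nat.card_eq_fintype_card]
  decide +kernel

/-- Every involution of the group has at most two conjugates. -/
lemma centralizer_big : ∀ y : Hz, y * y = 1 →
    32 ≤ (univ.filter fun g : Hz => g⁻¹ * y * g = y).card := by
  decide +kernel

/-- The cyclic subgroup of order 4 generated by `(1, 0, 0)`. -/
def H0 : Subgroup Hz where
  carrier := {g | g.b = 0 ∧ g.c = 0}
  one_mem' := ⟨rfl, rfl⟩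
  mul_mem' := by
    rintro x y ⟨h1, h2⟩ ⟨h3, h4⟩
    constructor
    · simp [h1, h3]
    · simp [h2, h3, h4]
  inv_mem' := by
    rintro x ⟨h1, h2⟩
    constructor
    · simp [h1]
    · simp [h1, h2]

lemma mem_H0 {g : Hz} : g ∈ H0 ↔ g.b = 0 ∧ g.c = 0 := Iff.rfl

lemma card_H0 : Nat.card H0 = 4 := by
  have : Nat.card H0 = (univ.filter fun g : Hz => g.b = 0 ∧ g.c = 0).card := by
    rw [← Fintype.card_subtype, ← Nat.card_eq_fintype_card]
    rfl
  rw [this]
  decide +kernel

lemma meet_table : ∀ g : Hz, (univ.filter fun h : Hz => (h.b = 0 ∧ h.c = 0) ∧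
    ((g⁻¹ * h * g).b = 0 ∧ (g⁻¹ * h * g).c = 0)).card =
      if g.b = 0 then 4 else if g.b = 2 then 2 else 1 := by
  decide +kernel

lemma tt_table (g : Hz) : tt H0 H0 (mkD H0 H0 g) =
    if g.b = 0 then 1 else if g.b = 2 then 2 else 4 := by
  have h1 := tt_mul H0 g
  rw [card_H0] at h1
  have h2 : Nat.card {h : Hz // h ∈ H0 ∧ g⁻¹ * h * g ∈ H0} =
      if g.b = 0 then 4 else if g.b = 2 then 2 else 1 := by
    rw [← meet_table g, ← Fintype.card_subtype, ← Nat.card_eq_fintype_card]
    rfl
  rw [h2] at h1
  split_ifs at h1 ⊢ <;> omega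

lemma P_H0 : P H0 H0 = 9 / 4096 := by
  classical
  have : Fintype (DQ H0 H0) := Fintype.ofFinite _
  rw [P_count H0 (by
    intro g
    rw [tt_table]
    split_ifs <;> simp)]
  have e2 := card_E H0 2
  have e4 := card_E H0 4
  have c2 : Nat.card {g : Hz // tt H0 H0 (mkD H0 H0 g) = 2} = 16 := by
    have key : ∀ b : ZMod 4, ((if b = 0 then 1 else if b = 2 then 2 else 4 : ℕ) = 2) ↔ b = 2 := by
      decide
    have : Nat.card {g : Hz // tt H0 H0 (mkD H0 H0 g) = 2} =
        (univ.filter fun g : Hz => g.b = 2).card := by
      rw [← Fintype.card_subtype, ← Nat.card_eq_fintype_card]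
      apply Nat.card_congr
      apply Equiv.subtypeEquivRight
      intro g
      rw [tt_table]
      exact key g.b
    rw [this]
    decide +kernel
  have c4 : Nat.card {g : Hz // tt H0 H0 (mkD H0 H0 g) = 4} = 32 := by
    have key : ∀ b : ZMod 4, ((if b = 0 then 1 else if b = 2 then 2 else 4 : ℕ) = 4) ↔
        (b ≠ 0 ∧ b ≠ 2) := by
      decide
    have : Nat.card {g : Hz // tt H0 H0 (mkD H0 H0 g) = 4} =
        (univ.filter fun g : Hz => g.b ≠ 0 ∧ g.b ≠ 2).card := by
      rw [← Fintype.card_subtype, ← Nat.card_eq_fintype_card]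
      apply Nat.card_congr
      apply Equiv.subtypeEquivRight
      intro g
      rw [tt_table]
      exact key g.b
    rw [this]
    decide +kernel
  rw [c2, card_H0] at e2
  rw [c4, card_H0] at e4
  have n2 : (univ.filter fun d : DQ H0 H0 => tt H0 H0 d = 2).card = 2 := by omega
  have n4 : (univ.filter fun d : DQ H0 H0 => tt H0 H0 d = 4).card = 2 := by omega
  rw [n2, n4]
  norm_num

/-- Every subgroup whose core has index at most 2 in it has transversal probability at least
`1/256`. -/
lemma P_small (H : Subgroup Hz) (hH : H.normalCore.relIndex H ≤ 2) : 1 / 256 ≤ P H H := by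
  classical
  have : Fintype (DQ H H) := Fintype.ofFinite _
  have hle : ∀ g, tt H H (mkD H H g) = 1 ∨ tt H H (mkD H H g) = 2 := by
    intro g
    have h1 := tt_le_core H g
    have h2 := tt_pos H H (mkD H H g)
    omega
  rw [P_count H (fun g => by rcases hle g with h | h <;> simp [h])]
  have h4 : (univ.filter fun d : DQ H H => tt H H d = 4).card = 0 := by
    rw [Finset.card_eq_zero, Finset.filter_eq_empty_iff]
    intro d _
    obtain ⟨x, rfl⟩ := Quotient.exists_rep d
    have := hle x
    change tt H H (mkD H H x) ≠ 4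
    omega
  rw [h4, pow_zero, mul_one]
  have e2 := card_E H 2
  have hcard : Nat.card {g : Hz // tt H H (mkD H H g) = 2} ≤ 64 := by
    rw [← card_Hz]
    exact Nat.card_le_card_of_injective (fun x => x.1) Subtype.val_injective
  have hn : (univ.filter fun d : DQ H H => tt H H d = 2).card ≤ 8 := by
    by_cases hc : 4 ≤ Nat.card H
    · by_contra hcon
      push Not at hcon
      have : 2 * 4 * 9 ≤ 2 * Nat.card H * (univ.filter fun d : DQ H H => tt H H d = 2).card :=
        Nat.mul_le_mul (Nat.mul_le_mul_left 2 hc) hcon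
      omega
    · have hdvd : Nat.card H ∣ 64 := card_Hz ▸ Subgroup.card_subgroup_dvd_card H
      have hpos : 0 < Nat.card H := Nat.card_pos
      have h12 : Nat.card H = 1 ∨ Nat.card H = 2 := by
        have : Nat.card H < 4 := by omega
        interval_cases h : Nat.card H
        · left; rfl
        · right; rfl
        · norm_num at hdvd
      rcases h12 with h1 | h2
      · have hz : Nat.card {g : Hz // tt H H (mkD H H g) = 2} = 0 := by
          rw [Nat.card_eq_zero]
          left
          constructor
          rintro ⟨g, hg⟩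
          have := tt_mul H g
          rw [hg, h1] at this
          omega
        rw [hz, h1] at e2
        omega
      · obtain ⟨y, hy⟩ : ∃ y : H, y ≠ 1 := by
          have : Nontrivial H := Finite.one_lt_card_iff_nontrivial.1 (by omega)
          exact exists_ne 1
        have hall : ∀ h : H, h = 1 ∨ h = y := by
          intro h
          by_contra hcon
          push Not at hcon
          have : Fintype H := Fintype.ofFinite _
          have h3 : ({1, y, h} : Finset H).card ≤ Nat.card H := by
            rw [Nat.card_eq_fintype_card]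
            exact Finset.card_le_univ _
          rw [Finset.card_eq_three.2 ⟨1, y, h, hy.symm, hcon.1.symm, hcon.2.symm, rfl⟩] at h3
          omega
        have hyy : y * y = 1 := by
          rcases hall (y * y) with h | h
          · exact h
          · exfalso
            exact hy (mul_eq_left.1 h)
        have hyy' : (y : Hz) * y = 1 := by exact_mod_cast congrArg Subtype.val hyy
        have hbig := centralizer_big y hyy'
        have hle32 : Nat.card {g : Hz // tt H H (mkD H H g) = 2} ≤ 32 := by
          have e : Nat.card {g : Hz // tt H H (mkD H H g) = 2} =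
              (univ.filter fun g : Hz => tt H H (mkD H H g) = 2).card := by
            rw [← Fintype.card_subtype, ← Nat.card_eq_fintype_card]
          rw [e]
          have hdis : Disjoint (univ.filter fun g : Hz => tt H H (mkD H H g) = 2)
              (univ.filter fun g : Hz => g⁻¹ * (y : Hz) * g = y) := by
            rw [Finset.disjoint_left]
            intro g hg1 hg2
            rw [Finset.mem_filter] at hg1 hg2
            have h5 := tt_mul H g
            rw [hg1.2, h2] at h5
            have h6 : Nat.card {h : Hz // h ∈ H ∧ g⁻¹ * h * g ∈ H} = 1 := by omega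
            rw [Nat.card_eq_one_iff_unique] at h6
            obtain ⟨hs, _⟩ := h6
            have h7 : (⟨1, H.one_mem, by simp⟩ : {h : Hz // h ∈ H ∧ g⁻¹ * h * g ∈ H}) =
                ⟨y, y.2, by rw [hg2.2]; exact y.2⟩ := Subsingleton.elim _ _
            have h8 : (1 : Hz) = y := congrArg Subtype.val h7
            exact hy (Subtype.ext h8.symm)
          have h9 := Finset.card_union_of_disjoint hdis
          have h10 : ((univ.filter fun g : Hz => tt H H (mkD H H g) = 2) ∪
              (univ.filter fun g : Hz => g⁻¹ * (y : Hz) * g = y)).card ≤ 64 := by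
            rw [← card_Hz, Nat.card_eq_fintype_card]
            exact Finset.card_le_univ _
          omega
        rw [h2] at e2
        omega
  calc (1 : ℚ) / 256 = (1 / 2) ^ 8 := by norm_num
    _ ≤ (1 / 2) ^ (univ.filter fun d : DQ H H => tt H H d = 2).card :=
        pow_le_pow_of_le_one (by norm_num) (by norm_num) hn

end Pool.Agent.Q180.TQ
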